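import Mathlib

set_option autoImplicit false

/-! Length of quotients of a local ring. -/

namespace Pool.Agent.R813.LM

open IsLocalRing

/-- length of `R / I` -/
noncomputable def len {R : Type*} [CommRing R] (I : Ideal R) : ℕ∞ := Module.length R (R ⧸ I)

variable {R : Type*} [CommRing R]

theorem len_anti {I J : Ideal R} (h : I ≤ J) : len J ≤ len I := by
  unfold len
  rw [Module.length_quotient, Module.length_quotient]
  exact Order.coheight_anti h

theorem len_top : len (⊤ : Ideal R) = 0 := by
  unfold len
  exact Module.length_eq_zero_iff.2 (Ideal.Quotient.subsingleton_iff.2 rfl)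

theorem len_strict {I J : Ideal R} (h : I < J) : len J + 1 ≤ len I := by
  unfold len
  rw [Module.length_quotient, Module.length_quotient]
  exact Order.coheight_add_one_le h

theorem len_step [IsLocalRing R] {I J : Ideal R} (x : R) (hIJ : I ≤ J)
    (h1 : J ≤ I ⊔ Ideal.span {x}) (h2 : ∀ r ∈ maximalIdeal R, r * x ∈ I) :
    len I ≤ len J + 1 := by
  set g : (R ⧸ I) →ₗ[R] (R ⧸ J) := Submodule.factor hIJ with hg
  have hgs : Function.Surjective g := Submodule.factor_surjective hIJ
  have h3 := Module.length_eq_add_of_exact (LinearMap.ker g).subtype g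
    (Submodule.subtype_injective _) hgs (LinearMap.exact_subtype_ker_map g)
  have h4 : Module.length R (LinearMap.ker g) ≤ 1 := by
    have hm : maximalIdeal R ≤ LinearMap.ker (LinearMap.toSpanSingleton R (R ⧸ I)
        (Submodule.Quotient.mk x)) := by
      intro r hr
      rw [LinearMap.mem_ker, LinearMap.toSpanSingleton_apply, ← Submodule.Quotient.mk_smul,
        Submodule.Quotient.mk_eq_zero]
      exact h2 r hr
    set f : (R ⧸ maximalIdeal R) →ₗ[R] (R ⧸ I) := Submodule.liftQ _ _ hm with hf
    have hrange : LinearMap.ker g ≤ LinearMap.range f := by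
      intro y hy
      obtain ⟨a, rfl⟩ := Submodule.Quotient.mk_surjective _ y
      rw [LinearMap.mem_ker] at hy
      have ha : a ∈ J := by
        have e : g (Submodule.Quotient.mk a) = Submodule.Quotient.mk a := rfl
        rwa [e, Submodule.Quotient.mk_eq_zero] at hy
      obtain ⟨b, hb, c, hc, hbc⟩ := Submodule.mem_sup.1 (h1 ha)
      obtain ⟨r, rfl⟩ := Ideal.mem_span_singleton'.1 hc
      refine ⟨Submodule.Quotient.mk r, ?_⟩
      rw [hf, Submodule.liftQ_apply, LinearMap.toSpanSingleton_apply, ← Submodule.Quotient.mk_smul,
        Submodule.Quotient.eq]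
      have : r • x - a = -b := by rw [← hbc, smul_eq_mul]; ring
      rw [this]
      exact neg_mem hb
    have h5 : Module.length R (LinearMap.ker g) ≤ Module.length R (LinearMap.range f) :=
      Module.length_le_of_injective (Submodule.inclusion hrange) (Submodule.inclusion_injective _)
    have h6 : Module.length R (LinearMap.range f) ≤ Module.length R (R ⧸ maximalIdeal R) :=
      Module.length_le_of_surjective f.rangeRestrict f.surjective_rangeRestrict
    have h7 : Module.length R (R ⧸ maximalIdeal R) = 1 := by
      rw [Module.length_eq_one_iff, isSimpleModule_iff_isCoatom]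
      exact (maximalIdeal.isMaximal R).out
    exact h5.trans (h6.trans h7.le)
  unfold len
  rw [h3, add_comm]
  gcongr

end Pool.Agent.R813.LM
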