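import Mathlib
import Pool.Agent.R813.LM.Len

set_option autoImplicit false

/-! The ideal `(x) + (y,z)^n`. -/

namespace Pool.Agent.R813.LM

open IsLocalRing Finset

variable {R : Type*} [CommRing R]

/-- the ideal -/
def AA (x y z : R) (n : ℕ) : Ideal R := Ideal.span {x} ⊔ (Ideal.span {y, z}) ^ n

theorem pair_pow_le (y z : R) (p : ℕ) :
    (Ideal.span {y, z}) ^ p ≤ Ideal.span {r | ∃ j ≤ p, r = y ^ j * z ^ (p - j)} := by
  induction p with
  | zero =>
    rw [pow_zero, Ideal.one_eq_top, top_le_iff, Ideal.eq_top_iff_one]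
    exact Ideal.subset_span ⟨0, le_rfl, by simp⟩
  | succ p ih =>
    rw [pow_succ]
    refine (Ideal.mul_mono_left ih).trans ?_
    rw [Ideal.span_mul_span', Ideal.span_le]
    rintro r hr
    obtain ⟨a, ⟨j, hj, rfl⟩, b, hb, rfl⟩ := Set.mem_mul.1 hr
    rcases hb with rfl | hb
    · refine Ideal.subset_span ⟨j + 1, by omega, ?_⟩
      rw [show p + 1 - (j + 1) = p - j by omega]; ring
    · rw [Set.mem_singleton_iff] at hb
      subst hb
      refine Ideal.subset_span ⟨j, by omega, ?_⟩
      rw [show p + 1 - j = p - j + 1 by omega]; ring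

theorem mono_mem (y z : R) (i j : ℕ) : y ^ i * z ^ j ∈ (Ideal.span {y, z}) ^ (i + j) := by
  rw [pow_add]
  exact Ideal.mul_mem_mul (Ideal.pow_mem_pow (Ideal.subset_span (by simp)) _)
    (Ideal.pow_mem_pow (Ideal.subset_span (by simp)) _)

theorem len_AA_step [IsLocalRing R] {x y z : R} (hm : maximalIdeal R = Ideal.span {x, y, z})
    (p : ℕ) : len (AA x y z (p + 1)) ≤ len (AA x y z p) + (p + 1 : ℕ) := by
  set B : ℕ → Ideal R := fun i => AA x y z (p + 1) ⊔
    Ideal.span {r | ∃ j < i, r = y ^ j * z ^ (p - j)} with hB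
  have h1 : ∀ i ≤ p + 1, len (AA x y z (p + 1)) ≤ len (B i) + i := by
    intro i
    induction i with
    | zero =>
      intro _
      rw [Nat.cast_zero, add_zero]
      refine len_anti (sup_le le_rfl ?_)
      rw [Ideal.span_le]
      rintro r ⟨j, hj, _⟩
      omega
    | succ i ih =>
      intro hi
      have h2 : len (B i) ≤ len (B (i + 1)) + 1 := by
        refine len_step (y ^ i * z ^ (p - i)) ?_ ?_ ?_
        · refine sup_le_sup_left (Ideal.span_mono ?_) _
          rintro r ⟨j, hj, h⟩
          exact ⟨j, by omega, h⟩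
        · refine sup_le (le_sup_left.trans le_sup_left) ?_
          rw [Ideal.span_le]
          rintro r ⟨j, hj, rfl⟩
          rcases (Nat.lt_succ_iff.1 hj).eq_or_lt with h | h
          · subst h
            exact Ideal.mem_sup_right (Ideal.mem_span_singleton_self _)
          · exact Ideal.mem_sup_left (Ideal.mem_sup_right (Ideal.subset_span ⟨j, h, rfl⟩))
        · intro r hr
          refine Ideal.mem_sup_left ?_
          rw [hm, Ideal.mem_span_insert] at hr
          obtain ⟨a, t, ht, rfl⟩ := hr
          rw [Ideal.mem_span_insert] at ht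
          obtain ⟨b, s, hs, rfl⟩ := ht
          obtain ⟨c, rfl⟩ := Ideal.mem_span_singleton'.1 hs
          have e3 : (a * x + (b * y + c * z)) * (y ^ i * z ^ (p - i)) =
              (a * (y ^ i * z ^ (p - i))) * x + (b * (y ^ (i + 1) * z ^ (p - i)) +
                c * (y ^ i * z ^ (p - i + 1))) := by ring
          rw [e3]
          refine add_mem (Ideal.mem_sup_left (Ideal.mul_mem_left _ _
            (Ideal.mem_span_singleton_self _))) (Ideal.mem_sup_right (add_mem ?_ ?_))
          · refine Ideal.mul_mem_left _ _ ?_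
            have := mono_mem y z (i + 1) (p - i)
            rwa [show i + 1 + (p - i) = p + 1 by omega] at this
          · refine Ideal.mul_mem_left _ _ ?_
            have := mono_mem y z i (p - i + 1)
            rwa [show i + (p - i + 1) = p + 1 by omega] at this
      have h3 := ih (by omega)
      push_cast
      calc len (AA x y z (p + 1)) ≤ len (B i) + i := h3
        _ ≤ (len (B (i + 1)) + 1) + i := add_le_add h2 le_rfl
        _ = len (B (i + 1)) + (i + 1) := by rw [add_assoc, add_comm 1 (i : ℕ∞)]
  have h4 := h1 (p + 1) le_rfl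
  have h5 : len (B (p + 1)) ≤ len (AA x y z p) := by
    refine len_anti ?_
    refine sup_le (le_sup_left.trans le_sup_left) ?_
    refine (pair_pow_le y z p).trans ?_
    rw [Ideal.span_le]
    rintro r ⟨j, hj, rfl⟩
    exact Ideal.mem_sup_right (Ideal.subset_span ⟨j, by omega, rfl⟩)
  exact h4.trans (add_le_add h5 le_rfl)

theorem len_AA_le [IsLocalRing R] {x y z : R} (hm : maximalIdeal R = Ideal.span {x, y, z})
    (n : ℕ) : len (AA x y z n) ≤ ((∑ i ∈ range n, (i + 1) : ℕ) : ℕ∞) := by
  induction n with
  | zero =>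
    have : AA x y z 0 = ⊤ := by unfold AA; rw [pow_zero, Ideal.one_eq_top, sup_top_eq]
    rw [this, len_top]; simp
  | succ n ih =>
    rw [sum_range_succ, Nat.cast_add]
    exact (len_AA_step hm n).trans (add_le_add ih le_rfl)

end Pool.Agent.R813.LM
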