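import Mathlib
import Pool.Agent.R813.LM.Len
import Pool.Agent.R813.LM.Low

set_option autoImplicit false

/-! Monomial ideals in the power series ring in three variables. -/

namespace Pool.Agent.R813.LM

open IsLocalRing Finset MvPowerSeries

variable {k : Type*} [Field k]

/-- series without terms in `T` -/
def JJ (k : Type*) [Field k] (T : LowerSet (Fin 3 →₀ ℕ)) : Ideal (MvPowerSeries (Fin 3) k) where
  carrier := {s | ∀ m ∈ T, coeff m s = 0}
  zero_mem' := fun m _ => by simp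
  add_mem' := fun {a b} ha hb m hm => by rw [map_add, ha m hm, hb m hm, add_zero]
  smul_mem' := fun r s hs m hm => by
    rw [smul_eq_mul, coeff_mul]
    refine Finset.sum_eq_zero fun p hp => ?_
    rw [HasAntidiagonal.mem_antidiagonal] at hp
    rw [hs p.2 (T.lower (by rw [← hp]; exact le_add_self) hm), mul_zero]

theorem mem_JJ {T : LowerSet (Fin 3 →₀ ℕ)} {s : MvPowerSeries (Fin 3) k} :
    s ∈ JJ k T ↔ ∀ m ∈ T, coeff m s = 0 := Iff.rfl

theorem mul_mem_JJ {T T' T'' : LowerSet (Fin 3 →₀ ℕ)}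
    (h : ∀ a b, a ∉ T → b ∉ T' → a + b ∉ T'') {s t : MvPowerSeries (Fin 3) k}
    (hs : s ∈ JJ k T) (ht : t ∈ JJ k T') : s * t ∈ JJ k T'' := by
  intro m hm
  rw [coeff_mul]
  refine Finset.sum_eq_zero fun p hp => ?_
  rw [HasAntidiagonal.mem_antidiagonal] at hp
  by_cases h1 : p.1 ∈ T
  · rw [hs _ h1, zero_mul]
  · by_cases h2 : p.2 ∈ T'
    · rw [ht _ h2, mul_zero]
    · exact absurd (hp ▸ hm) (h _ _ h1 h2)

/-- the elements with `m 1 + m 2 < n` -/
def WW (n : ℕ) : LowerSet (Fin 3 →₀ ℕ) :=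
  ⟨{m | m 1 + m 2 < n}, fun a b hab ha => by
    have h1 := hab 1
    have h2 := hab 2
    simp only [Set.mem_ofPred_eq] at ha ⊢
    omega⟩

theorem mem_WW {n : ℕ} {m : Fin 3 →₀ ℕ} : m ∈ WW n ↔ m 1 + m 2 < n := Iff.rfl

/-- the region -/
def TT (a b : ℕ) (hab : b ≤ a) : LowerSet (Fin 3 →₀ ℕ) :=
  ⟨{m | (m 0 = 0 ∧ m 1 + m 2 < a) ∨ (m 0 = 1 ∧ m 1 + m 2 < b)}, fun c d hcd hc => by
    have h0 := hcd 0
    have h1 := hcd 1
    have h2 := hcd 2
    simp only [Set.mem_ofPred_eq] at hc ⊢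
    omega⟩

theorem mem_TT {a b : ℕ} {hab : b ≤ a} {m : Fin 3 →₀ ℕ} :
    m ∈ TT a b hab ↔ (m 0 = 0 ∧ m 1 + m 2 < a) ∨ (m 0 = 1 ∧ m 1 + m 2 < b) := Iff.rfl

theorem pair_pow_WW (n : ℕ) :
    (Ideal.span {(X 1 : MvPowerSeries (Fin 3) k), X 2}) ^ n ≤ JJ k (WW n) := by
  induction n with
  | zero =>
    intro s _ m hm
    rw [mem_WW] at hm
    omega
  | succ n ih =>
    rw [pow_succ, Ideal.mul_le]
    intro r hr s hs
    refine mul_mem_JJ (T := WW n) (T' := WW 1) ?_ (ih hr) ?_
    · intro a b ha hb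
      rw [mem_WW] at *
      simp only [Finsupp.add_apply]
      omega
    · revert s
      change Ideal.span {(X 1 : MvPowerSeries (Fin 3) k), X 2} ≤ JJ k (WW 1)
      rw [Ideal.span_le]
      rintro s hs m hm
      rw [mem_WW] at hm
      rcases hs with rfl | hs
      · rw [coeff_X, if_neg]
        rintro rfl
        simp at hm
      · rw [Set.mem_singleton_iff] at hs
        subst hs
        rw [coeff_X, if_neg]
        rintro rfl
        simp at hm

theorem AA_pow_le (n k' : ℕ) :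
    (AA (X 0 : MvPowerSeries (Fin 3) k) (X 1) (X 2) n) ^ k' ≤
      JJ k (TT (n * k') (n * (k' - 1)) (Nat.mul_le_mul_left _ (Nat.sub_le _ _))) := by
  induction k' with
  | zero =>
    intro s _ m hm
    rw [mem_TT] at hm
    simp at hm
  | succ l ih =>
    rw [pow_succ', Ideal.mul_le]
    intro r hr s hs
    refine mul_mem_JJ (T := TT n 0 (Nat.zero_le _)) ?_ ?_ (ih hs)
    · intro a b ha hb
      rw [mem_TT] at *
      simp only [Finsupp.add_apply, Nat.add_sub_cancel]
      rw [Nat.mul_succ]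
      rcases Nat.eq_zero_or_pos l with h | h
      · subst h
        simp only [Nat.mul_zero, Nat.zero_sub] at *
        omega
      · obtain ⟨l', rfl⟩ : ∃ l', l = l' + 1 := ⟨l - 1, by omega⟩
        simp only [Nat.add_sub_cancel, Nat.mul_succ] at *
        clear ih
        generalize n * l' = q at *
        omega
    · revert r
      change AA (X 0 : MvPowerSeries (Fin 3) k) (X 1) (X 2) n ≤ _
      refine sup_le ?_ ?_
      · rw [Ideal.span_singleton_le_iff_mem]
        intro m hm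
        rw [mem_TT] at hm
        rw [coeff_X, if_neg]
        rintro rfl
        simp at hm
      · refine (pair_pow_WW n).trans ?_
        intro s hs m hm
        refine hs m ?_
        rw [mem_TT] at hm
        rw [mem_WW]
        omega

theorem card_le_len (T : Finset (Fin 3 →₀ ℕ)) (hT : IsLowerSet (T : Set (Fin 3 →₀ ℕ)))
    (h0 : ∀ m ∈ T, m 0 < 2) :
    (T.card : ℕ∞) ≤ len ((JJ k ⟨T, hT⟩).map (Ideal.Quotient.mk
      (Ideal.span {(X 0 : MvPowerSeries (Fin 3) k) ^ 2}))) := by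
  classical
  obtain ⟨c, hc⟩ : ∃ c, c = T.card := ⟨_, rfl⟩
  induction c generalizing T with
  | zero => rw [← hc]; simp
  | succ c ih =>
    have hne : T.Nonempty := Finset.card_pos.1 (by omega)
    obtain ⟨m, hm⟩ := T.exists_maximal hne
    have hT' : IsLowerSet ((T.erase m : Finset (Fin 3 →₀ ℕ)) : Set (Fin 3 →₀ ℕ)) := by
      intro a b hba ha
      rw [mem_coe, mem_erase] at *
      refine ⟨?_, hT hba ha.2⟩
      rintro rfl
      exact ha.1 (le_antisymm (hm.2 ha.2 hba) hba)
    have h1 := ih (T.erase m) hT' (fun a ha => h0 a (mem_of_mem_erase ha))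
      (by rw [card_erase_of_mem hm.1]; omega)
    have h2 : T.card = (T.erase m).card + 1 := by rw [card_erase_of_mem hm.1]; omega
    rw [h2, Nat.cast_add, Nat.cast_one]
    refine (add_le_add h1 le_rfl).trans (len_strict ?_)
    set π := Ideal.Quotient.mk (Ideal.span {(X 0 : MvPowerSeries (Fin 3) k) ^ 2}) with hπ
    have hle : JJ k ⟨T, hT⟩ ≤ JJ k ⟨(T.erase m : Finset (Fin 3 →₀ ℕ)), hT'⟩ := by
      intro s hs a ha
      exact hs a (mem_of_mem_erase (s := T) ha)
    refine lt_of_le_of_ne (Ideal.map_mono hle) ?_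
    intro heq
    have h3 : π (monomial m (1 : k)) ∈
        (JJ k ⟨(T.erase m : Finset (Fin 3 →₀ ℕ)), hT'⟩).map π := by
      refine Ideal.mem_map_of_mem _ ?_
      intro a ha
      rw [coeff_monomial, if_neg]
      exact (mem_erase.1 ha).1
    rw [← heq] at h3
    have h4 : monomial m (1 : k) ∈ JJ k ⟨T, hT⟩ := by
      have h5 := Ideal.mem_comap.2 h3
      rw [Ideal.comap_map_of_surjective _ Ideal.Quotient.mk_surjective] at h5
      refine (sup_le le_rfl ?_ : JJ k ⟨T, hT⟩ ⊔ Ideal.comap π ⊥ ≤ JJ k ⟨T, hT⟩) h5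
      rw [← RingHom.ker_eq_comap_bot, hπ, Ideal.mk_ker, Ideal.span_singleton_le_iff_mem]
      intro a ha
      rw [X_pow_eq, coeff_monomial, if_neg]
      rintro rfl
      have := h0 _ ha
      simp at this
    have h5 := h4 m hm.1
    rw [coeff_monomial, if_pos rfl] at h5
    exact one_ne_zero h5

end Pool.Agent.R813.LM
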