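import Mathlib
import Pool.Agent.R813.LM.Mon

set_option autoImplicit false

/-! Counting monomials. -/

namespace Pool.Agent.R813.LM

open IsLocalRing Finset MvPowerSeries

variable {k : Type*} [Field k]

/-- the exponent `(i, j, l)` -/
noncomputable def ex (i j l : ℕ) : Fin 3 →₀ ℕ := Finsupp.equivFunOnFinite.symm ![i, j, l]

theorem ex0 (i j l : ℕ) : ex i j l 0 = i := rfl
theorem ex1 (i j l : ℕ) : ex i j l 1 = j := rfl
theorem ex2 (i j l : ℕ) : ex i j l 2 = l := rfl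

theorem ex_eta (m : Fin 3 →₀ ℕ) : ex (m 0) (m 1) (m 2) = m := by
  ext i
  fin_cases i <;> rfl

open Classical in
/-- one layer -/
noncomputable def Lay (i a : ℕ) : Finset (Fin 3 →₀ ℕ) :=
  ((range a).sigma (fun s => antidiagonal s)).image (fun p => ex i p.2.1 p.2.2)

theorem mem_Lay {i a : ℕ} {m : Fin 3 →₀ ℕ} : m ∈ Lay i a ↔ m 0 = i ∧ m 1 + m 2 < a := by
  unfold Lay
  rw [mem_image]
  constructor
  · rintro ⟨⟨s, p⟩, h, rfl⟩
    rw [mem_sigma, mem_range, HasAntidiagonal.mem_antidiagonal] at h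
    simp only at h ⊢
    rw [ex0, ex1, ex2]
    exact ⟨rfl, by omega⟩
  · rintro ⟨h1, h2⟩
    refine ⟨⟨m 1 + m 2, (m 1, m 2)⟩, ?_, ?_⟩
    · rw [mem_sigma, mem_range, HasAntidiagonal.mem_antidiagonal]
      exact ⟨h2, rfl⟩
    · simp only
      rw [← h1, ex_eta]

theorem card_Lay (i a : ℕ) : (Lay i a).card = ∑ s ∈ range a, (s + 1) := by
  unfold Lay
  rw [card_image_of_injOn, card_sigma]
  · exact sum_congr rfl fun s _ => Finset.Nat.card_antidiagonal s
  · rintro ⟨s, p⟩ hp ⟨t, q⟩ hq h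
    rw [mem_coe, mem_sigma, HasAntidiagonal.mem_antidiagonal] at hp hq
    simp only at hp hq h
    have h1 : p.1 = q.1 := by
      have := DFunLike.congr_fun h 1
      rwa [ex1, ex1] at this
    have h2 : p.2 = q.2 := by
      have := DFunLike.congr_fun h 2
      rwa [ex2, ex2] at this
    have h3 : p = q := Prod.ext h1 h2
    subst h3
    have h4 : s = t := by rw [← hp.2, ← hq.2]
    subst h4
    rfl

theorem count_le_len (a b : ℕ) (hab : b ≤ a) :
    ((∑ s ∈ range a, (s + 1) + ∑ s ∈ range b, (s + 1) : ℕ) : ℕ∞) ≤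
      len ((JJ k (TT a b hab)).map (Ideal.Quotient.mk
      (Ideal.span {(X 0 : MvPowerSeries (Fin 3) k) ^ 2}))) := by
  classical
  have hdisj : Disjoint (Lay 0 a) (Lay 1 b) := by
    rw [Finset.disjoint_left]
    intro m h1 h2
    rw [mem_Lay] at h1 h2
    omega
  have hcard : (Lay 0 a ∪ Lay 1 b).card = ∑ s ∈ range a, (s + 1) + ∑ s ∈ range b, (s + 1) := by
    rw [card_union_of_disjoint hdisj, card_Lay, card_Lay]
  have hset : ((Lay 0 a ∪ Lay 1 b : Finset (Fin 3 →₀ ℕ)) : Set (Fin 3 →₀ ℕ)) =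
      (TT a b hab : Set (Fin 3 →₀ ℕ)) := by
    ext m
    rw [mem_coe, mem_union, mem_Lay, mem_Lay]
    rfl
  have hlow : IsLowerSet ((Lay 0 a ∪ Lay 1 b : Finset (Fin 3 →₀ ℕ)) : Set (Fin 3 →₀ ℕ)) := by
    rw [hset]; exact (TT a b hab).lower
  have h := card_le_len (k := k) (Lay 0 a ∪ Lay 1 b) hlow (by
    intro m hm
    rw [mem_union, mem_Lay, mem_Lay] at hm
    omega)
  rw [hcard] at h
  refine h.trans (le_of_eq ?_)
  congr 3
  exact LowerSet.ext hset

theorem gauss (a : ℕ) : 2 * ∑ s ∈ range a, (s + 1) = a ^ 2 + a := by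
  induction a with
  | zero => rfl
  | succ a ih => rw [sum_range_succ, mul_add, ih]; ring

/-- the growth of the powers of `(x) + (y,z)^n` in the quotient by `x ^ 2` -/
theorem AA_growth (n l : ℕ) :
    ((2 * (n * l) ^ 2 : ℕ) : ℕ∞) ≤
      2 * len (((AA (X 0 : MvPowerSeries (Fin 3) k) (X 1) (X 2) n).map (Ideal.Quotient.mk
      (Ideal.span {(X 0 : MvPowerSeries (Fin 3) k) ^ 2}))) ^ (l + 1)) := by
  rw [← Ideal.map_pow]
  have h1 := count_le_len (k := k) (n * (l + 1)) (n * (l + 1 - 1))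
    (Nat.mul_le_mul_left _ (Nat.sub_le _ _))
  have h2 := len_anti (Ideal.map_mono (f := Ideal.Quotient.mk
      (Ideal.span {(X 0 : MvPowerSeries (Fin 3) k) ^ 2})) (AA_pow_le (k := k) n (l + 1)))
  have h3 := h1.trans h2
  refine le_trans ?_ (mul_le_mul_right h3 2)
  norm_cast
  rw [mul_add, gauss, gauss, Nat.add_sub_cancel, Nat.mul_succ]
  nlinarith [Nat.zero_le (n * l * n), Nat.zero_le (n * l), Nat.zero_le n]

end Pool.Agent.R813.LM
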