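import Mathlib
import Pool.Agent.R813.LM.Len

set_option autoImplicit false

/-! Local rings whose maximal ideal is generated by `x, y, z` with `x ^ 2 = y ^ (2 M + 1)`. -/

namespace Pool.Agent.R813.LM

open IsLocalRing Finset

/-- the semigroup -/
def GG (M i : ℕ) : Prop := i % 2 = 0 ∨ 2 * M + 1 ≤ i

instance (M i : ℕ) : Decidable (GG M i) := by unfold GG; infer_instance

/-- the setting -/
structure Cusp (R : Type*) [CommRing R] [IsLocalRing R] (M : ℕ) (x y z : R) : Prop where
  hm : maximalIdeal R = Ideal.span {x, y, z}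
  hx : x ^ 2 = y ^ (2 * M + 1)

variable {R : Type*} [CommRing R]

/-- the element of weight `i` -/
def ee (M : ℕ) (x y : R) (i : ℕ) : R :=
  if i % 2 = 0 then y ^ (i / 2) else x * y ^ ((i - (2 * M + 1)) / 2)

theorem GG_add {M i j : ℕ} (hi : GG M i) (hj : GG M j) : GG M (i + j) := by
  unfold GG at *; omega

theorem ee_mul {M : ℕ} {x y : R} (hx : x ^ 2 = y ^ (2 * M + 1)) {i j : ℕ} (hi : GG M i)
    (hj : GG M j) : ee M x y i * ee M x y j = ee M x y (i + j) := by
  unfold ee
  unfold GG at hi hj
  split_ifs with h1 h2 h3 h4 h5 h6 h7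
  · rw [← pow_add]; congr 1; omega
  · omega
  · omega
  · rw [mul_left_comm, ← pow_add]; congr 2; omega
  · omega
  · rw [mul_assoc, ← pow_add]; congr 2; omega
  · have : x * y ^ ((i - (2 * M + 1)) / 2) * (x * y ^ ((j - (2 * M + 1)) / 2)) =
        x ^ 2 * y ^ ((i - (2 * M + 1)) / 2 + (j - (2 * M + 1)) / 2) := by rw [pow_add]; ring
    rw [this, hx, ← pow_add]; congr 1; omega
  · omega

theorem ee_zero (M : ℕ) (x y : R) : ee M x y 0 = 1 := by simp [ee]

/-- the filtration -/
def FF (M : ℕ) (x y : R) (i : ℕ) : Ideal R :=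
  Ideal.span {r | ∃ j, GG M j ∧ i ≤ j ∧ r = ee M x y j}

theorem ee_mem {M : ℕ} (x y : R) {i j : ℕ} (hj : GG M j) (hij : i ≤ j) :
    ee M x y j ∈ FF M x y i := Ideal.subset_span ⟨j, hj, hij, rfl⟩

theorem FF_anti {M : ℕ} (x y : R) {i j : ℕ} (h : i ≤ j) : FF M x y j ≤ FF M x y i := by
  refine Ideal.span_mono ?_
  rintro r ⟨l, h1, h2, h3⟩
  exact ⟨l, h1, h.trans h2, h3⟩

theorem FF_zero (M : ℕ) (x y : R) : FF M x y 0 = ⊤ := by
  rw [Ideal.eq_top_iff_one, ← ee_zero M x y]
  exact ee_mem x y (Or.inl rfl) le_rfl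

theorem FF_mul {M : ℕ} {x y : R} (hx : x ^ 2 = y ^ (2 * M + 1)) {i j : ℕ} {a b : R}
    (ha : a ∈ FF M x y i) (hb : b ∈ FF M x y j) : a * b ∈ FF M x y (i + j) := by
  have h1 : FF M x y i * FF M x y j ≤ FF M x y (i + j) := by
    unfold FF
    rw [Ideal.span_mul_span, Ideal.span_le]
    rintro r hr
    obtain ⟨a, ⟨l, h1, h2, rfl⟩, b, ⟨m, h3, h4, rfl⟩, rfl⟩ := Set.mem_mul.1 (by simpa using hr)
    rw [ee_mul hx h1 h3]
    exact ee_mem x y (GG_add h1 h3) (by omega)
  exact h1 (Ideal.mul_mem_mul ha hb)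

theorem FF_succ {M : ℕ} (x y : R) {i : ℕ} (hi : ¬ GG M i) : FF M x y (i + 1) = FF M x y i := by
  refine le_antisymm (FF_anti x y (Nat.le_succ i)) (Ideal.span_mono ?_)
  rintro r ⟨l, h1, h2, h3⟩
  refine ⟨l, h1, ?_, h3⟩
  rcases h2.eq_or_lt with h | h
  · subst h; exact absurd h1 hi
  · exact h

theorem FF_le {M : ℕ} (x y : R) {i : ℕ} (hi : GG M i) :
    FF M x y i ≤ FF M x y (i + 1) ⊔ Ideal.span {ee M x y i} := by
  unfold FF
  rw [Ideal.span_le]
  rintro r ⟨l, h1, h2, rfl⟩
  rcases h2.eq_or_lt with h | h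
  · subst h; exact Ideal.mem_sup_right (Ideal.mem_span_singleton_self _)
  · exact Ideal.mem_sup_left (ee_mem x y h1 h)

/-- `z ^ j e_i` is a leading term of `I` -/
def PP (M : ℕ) (x y z : R) (I : Ideal R) (i j : ℕ) : Prop :=
  z ^ j * ee M x y i ∈ FF M x y (i + 1) ⊔ I

theorem PP_mul {M : ℕ} {x y z : R} (hx : x ^ 2 = y ^ (2 * M + 1)) {I J : Ideal R} {i j i' j' : ℕ}
    (hi : GG M i) (hi' : GG M i') (h : PP M x y z I i j) (h' : PP M x y z J i' j') :
    PP M x y z (I * J) (i + i') (j + j') := by
  obtain ⟨f, hf, a, ha, hfa⟩ := Submodule.mem_sup.1 h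
  obtain ⟨f', hf', a', ha', hfa'⟩ := Submodule.mem_sup.1 h'
  have hai : a ∈ FF M x y i := by
    have : a = z ^ j * ee M x y i - f := by rw [← hfa]; ring
    rw [this]
    exact sub_mem (Ideal.mul_mem_left _ _ (ee_mem x y hi le_rfl)) (FF_anti x y (Nat.le_succ i) hf)
  have hai' : a' ∈ FF M x y i' := by
    have : a' = z ^ j' * ee M x y i' - f' := by rw [← hfa']; ring
    rw [this]
    exact sub_mem (Ideal.mul_mem_left _ _ (ee_mem x y hi' le_rfl))
      (FF_anti x y (Nat.le_succ i') hf')
  unfold PP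
  rw [Submodule.mem_sup]
  refine ⟨f * f' + f * a' + a * f', ?_, a * a', Ideal.mul_mem_mul ha ha', ?_⟩
  · refine add_mem (add_mem ?_ ?_) ?_
    · exact FF_anti x y (by omega) (FF_mul hx hf hf')
    · exact FF_anti x y (by omega) (FF_mul hx hf hai')
    · exact FF_anti x y (by omega) (FF_mul hx hai hf')
  · rw [← ee_mul hx hi hi', pow_add]
    calc f * f' + f * a' + a * f' + a * a' = (f + a) * (f' + a') := by ring
      _ = _ := by rw [hfa, hfa']; ring

theorem PP_top (M : ℕ) (x y z : R) (i j : ℕ) : PP M x y z ⊤ i j := by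
  unfold PP; rw [sup_top_eq]; trivial

theorem PP_add {M : ℕ} {x y z : R} (hx : x ^ 2 = y ^ (2 * M + 1)) {I : Ideal R} {i j g h : ℕ}
    (hi : GG M i) (hg : GG M g) (hP : PP M x y z I i j) : PP M x y z I (i + g) (j + h) := by
  have := PP_mul hx hi hg hP (PP_top M x y z g h)
  rwa [Ideal.mul_top] at this

theorem PP_pow {M : ℕ} {x y z : R} (hx : x ^ 2 = y ^ (2 * M + 1)) {I : Ideal R} {i j : ℕ}
    (hi : GG M i) (hP : PP M x y z I i j) (n : ℕ) :
    GG M (n * i) ∧ PP M x y z (I ^ n) (n * i) (n * j) := by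
  induction n with
  | zero =>
    rw [pow_zero, Ideal.one_eq_top, Nat.zero_mul, Nat.zero_mul]
    exact ⟨Or.inl rfl, PP_top _ _ _ _ _ _⟩
  | succ n ih =>
    rw [pow_succ, Nat.succ_mul, Nat.succ_mul]
    exact ⟨GG_add ih.1 hi, PP_mul hx ih.1 hi ih.2 hP⟩

open Classical in
/-- least exponent -/
noncomputable def lam (M : ℕ) (x y z : R) (I : Ideal R) (i : ℕ) : ℕ :=
  if h : ∃ j, PP M x y z I i j then Nat.find h else 0

theorem lam_spec {M : ℕ} {x y z : R} {I : Ideal R} {i : ℕ} (h : ∃ j, PP M x y z I i j) :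
    PP M x y z I i (lam M x y z I i) ∧ ∀ j < lam M x y z I i, ¬ PP M x y z I i j := by
  classical
  unfold lam
  rw [dif_pos h]
  exact ⟨Nat.find_spec h, fun j hj => Nat.find_min h hj⟩

theorem lam_le {M : ℕ} {x y z : R} {I : Ideal R} {i j : ℕ} (h : PP M x y z I i j) :
    lam M x y z I i ≤ j := by
  by_contra hcon
  exact (lam_spec ⟨j, h⟩).2 j (not_le.1 hcon) h

variable [IsLocalRing R]

theorem Cusp.z_mem {M : ℕ} {x y z : R} (H : Cusp R M x y z) : z ∈ maximalIdeal R := by
  rw [H.hm]; exact Ideal.subset_span (by simp)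

/-- lower bound of the length -/
theorem Cusp.lower {M : ℕ} {x y z : R} (H : Cusp R M x y z) {I : Ideal R} (hz : ∃ b, z ^ b ∈ I)
    (K : ℕ) : ((∑ i ∈ range K, if GG M i then lam M x y z I i else 0 : ℕ) : ℕ∞) ≤
      len (FF M x y K ⊔ I) := by
  have hex : ∀ i, ∃ j, PP M x y z I i j := by
    obtain ⟨b, hb⟩ := hz
    exact fun i => ⟨b, Ideal.mem_sup_right (I.mul_mem_right _ hb)⟩
  induction K with
  | zero => simp
  | succ K ih =>
    rw [sum_range_succ]
    by_cases hK : GG M K
    · rw [if_pos hK]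
      set L := lam M x y z I K with hL
      obtain ⟨h1, h2⟩ := lam_spec (hex K)
      rw [← hL] at h1 h2
      set D : ℕ → Ideal R := fun j => Ideal.span {z ^ j * ee M x y K} ⊔ (FF M x y (K + 1) ⊔ I)
        with hD
      have h3 : ∀ j ≤ L, len (FF M x y K ⊔ I) + j ≤ len (D j) := by
        intro j
        induction j with
        | zero =>
          intro _
          rw [Nat.cast_zero, add_zero]
          refine len_anti ?_
          simp only [hD, pow_zero, one_mul]
          refine sup_le ?_ (sup_le ((FF_anti x y (Nat.le_succ K)).trans le_sup_left) le_sup_right)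
          rw [Ideal.span_singleton_le_iff_mem]
          exact Ideal.mem_sup_left (ee_mem x y hK le_rfl)
        | succ j ihj =>
          intro hj
          have h4 := ihj (by omega)
          have h5 : D (j + 1) < D j := by
            refine lt_of_le_of_ne ?_ ?_
            · refine sup_le_sup_right ?_ _
              rw [Ideal.span_singleton_le_iff_mem, Ideal.mem_span_singleton']
              exact ⟨z, by ring⟩
            · intro heq
              have h6 : z ^ j * ee M x y K ∈ D (j + 1) := by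
                rw [heq]; exact Ideal.mem_sup_left (Ideal.mem_span_singleton_self _)
              obtain ⟨u, hu, w, hw, huw⟩ := Submodule.mem_sup.1 h6
              obtain ⟨c, rfl⟩ := Ideal.mem_span_singleton'.1 hu
              have h7 : (1 - c * z) * (z ^ j * ee M x y K) ∈ FF M x y (K + 1) ⊔ I := by
                have : (1 - c * z) * (z ^ j * ee M x y K) = w := by
                  have : w = z ^ j * ee M x y K - c * (z ^ (j + 1) * ee M x y K) := by
                    rw [← huw]; ring
                  rw [this]; ring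
                rw [this]; exact hw
              have h8 : IsUnit (1 - c * z) := by
                by_contra hcon
                have h9 : (1 - c * z) ∈ maximalIdeal R := (mem_maximalIdeal _).2 hcon
                have h10 := add_mem h9 (Ideal.mul_mem_left _ c H.z_mem)
                rw [sub_add_cancel] at h10
                exact (Ideal.ne_top_iff_one _).1 (maximalIdeal.isMaximal R).ne_top h10
              have h9 := (Ideal.unit_mul_mem_iff_mem _ h8).1 h7
              exact h2 j (by omega) h9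
          have h6 := len_strict h5
          push_cast
          rw [← add_assoc]
          exact (add_le_add h4 le_rfl).trans h6
      have h4 := h3 L le_rfl
      have h5 : len (D L) ≤ len (FF M x y (K + 1) ⊔ I) := len_anti le_sup_right
      push_cast at ih ⊢
      exact (add_le_add ih le_rfl).trans (h4.trans h5)
    · rw [if_neg hK, add_zero, FF_succ x y hK]
      exact ih

theorem Cusp.mul_mem {M : ℕ} {x y z : R} (H : Cusp R M x y z) {K j : ℕ} (hK : GG M K) (I : Ideal R) :
    ∀ r ∈ maximalIdeal R, r * (z ^ j * ee M x y K) ∈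
      Ideal.span {z ^ (j + 1) * ee M x y K} ⊔ (FF M x y (K + 1) ⊔ I) := by
  intro r hr
  rw [H.hm, Ideal.mem_span_insert] at hr
  obtain ⟨a, t, ht, rfl⟩ := hr
  rw [Ideal.mem_span_insert] at ht
  obtain ⟨b, s, hs, rfl⟩ := ht
  obtain ⟨c, rfl⟩ := Ideal.mem_span_singleton'.1 hs
  have e1 : x * ee M x y K = ee M x y (2 * M + 1 + K) := by
    rw [← ee_mul H.hx (Or.inr le_rfl) hK]
    congr 1
    unfold ee
    rw [if_neg (by omega)]; simp
  have e2 : y * ee M x y K = ee M x y (2 + K) := by
    rw [← ee_mul H.hx (Or.inl rfl) hK]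
    congr 1
    unfold ee
    rw [if_pos rfl]; simp
  have e3 : (a * x + (b * y + c * z)) * (z ^ j * ee M x y K) =
      c * (z ^ (j + 1) * ee M x y K) + (a * z ^ j * ee M x y (2 * M + 1 + K) +
        b * z ^ j * ee M x y (2 + K)) := by
    rw [← e1, ← e2]; ring
  rw [e3]
  refine add_mem (Ideal.mem_sup_left (Ideal.mul_mem_left _ _ (Ideal.mem_span_singleton_self _)))
    (Ideal.mem_sup_right (Ideal.mem_sup_left (add_mem ?_ ?_)))
  · exact Ideal.mul_mem_left _ _ (ee_mem x y (GG_add (Or.inr le_rfl) hK) (by omega))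
  · exact Ideal.mul_mem_left _ _ (ee_mem x y (GG_add (Or.inl rfl) hK) (by omega))

/-- upper bound of the length -/
theorem Cusp.upper {M : ℕ} {x y z : R} (H : Cusp R M x y z) {I : Ideal R} (hz : ∃ b, z ^ b ∈ I)
    (K : ℕ) : len (FF M x y K ⊔ I) ≤
      ((∑ i ∈ range K, if GG M i then lam M x y z I i else 0 : ℕ) : ℕ∞) := by
  have hex : ∀ i, ∃ j, PP M x y z I i j := by
    obtain ⟨b, hb⟩ := hz
    exact fun i => ⟨b, Ideal.mem_sup_right (I.mul_mem_right _ hb)⟩
  induction K with
  | zero => rw [FF_zero, top_sup_eq, len_top]; simp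
  | succ K ih =>
    rw [sum_range_succ]
    by_cases hK : GG M K
    · rw [if_pos hK]
      set L := lam M x y z I K with hL
      obtain ⟨h1, h2⟩ := lam_spec (hex K)
      rw [← hL] at h1 h2
      set D : ℕ → Ideal R := fun j => Ideal.span {z ^ j * ee M x y K} ⊔ (FF M x y (K + 1) ⊔ I)
        with hD
      have h3 : ∀ j, len (D j) ≤ len (FF M x y K ⊔ I) + j := by
        intro j
        induction j with
        | zero =>
          rw [Nat.cast_zero, add_zero]
          refine len_anti ?_
          simp only [hD, pow_zero, one_mul]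
          refine sup_le ?_ (le_sup_right.trans le_sup_right)
          refine (FF_le x y hK).trans (sup_le (le_sup_left.trans le_sup_right) le_sup_left)
        | succ j ihj =>
          have h4 : len (D (j + 1)) ≤ len (D j) + 1 := by
            refine len_step (z ^ j * ee M x y K) ?_ ?_ (H.mul_mem hK I)
            · refine sup_le_sup_right ?_ _
              rw [Ideal.span_singleton_le_iff_mem, Ideal.mem_span_singleton']
              exact ⟨z, by ring⟩
            · exact sup_le le_sup_right (le_sup_right.trans le_sup_left)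
          push_cast
          rw [← add_assoc]
          exact h4.trans (add_le_add ihj le_rfl)
      have h4 := h3 L
      have h5 : len (FF M x y (K + 1) ⊔ I) ≤ len (D L) := by
        refine len_anti (sup_le ?_ le_rfl)
        rw [Ideal.span_singleton_le_iff_mem]
        exact h1
      push_cast at ih ⊢
      exact h5.trans (h4.trans (add_le_add ih le_rfl))
    · rw [if_neg hK, add_zero, FF_succ x y hK]
      exact ih

end Pool.Agent.R813.LM
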