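import Mathlib
import Pool.Agent.R813.LM.Loc

set_option autoImplicit false

/-! Growth of the length of powers. -/

namespace Pool.Agent.R813.LM

open IsLocalRing Finset

theorem sum_blocks (f : ℕ → ℕ) (m b : ℕ) :
    ∑ s ∈ range (m * b), f s = ∑ j ∈ range m, ∑ t ∈ range b, f (j * b + t) := by
  induction m with
  | zero => simp
  | succ m ih => rw [Nat.succ_mul, sum_range_add, ih, sum_range_succ]

theorem sum_pairs (f : ℕ → ℕ) (n : ℕ) :
    ∑ t ∈ range (2 * n), f t = ∑ q ∈ range n, (f (2 * q) + f (2 * q + 1)) := by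
  induction n with
  | zero => simp
  | succ n ih =>
    rw [Nat.mul_succ, sum_range_succ, sum_range_succ, ih, sum_range_succ]
    ring

theorem sum_tri (n A B : ℕ) :
    2 * ∑ q ∈ range n, ((n - q) * A + q * B) ≤ (n ^ 2 + n) * A + n ^ 2 * B := by
  have h1 : ∑ q ∈ range n, (n - q) + ∑ q ∈ range n, q = n * n := by
    rw [← sum_add_distrib]
    calc ∑ q ∈ range n, (n - q + q) = ∑ q ∈ range n, n :=
          sum_congr rfl fun q hq => by have := mem_range.1 hq; omega
      _ = n * n := by rw [sum_const, card_range, smul_eq_mul]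
  have h2 := sum_range_id_mul_two n
  rw [sum_add_distrib, ← sum_mul, ← sum_mul]
  set U := ∑ q ∈ range n, (n - q)
  set T := ∑ q ∈ range n, q
  have h3 : n * (n - 1) + n = n * n := by
    rcases Nat.eq_zero_or_pos n with h | h
    · subst h; rfl
    · obtain ⟨m, rfl⟩ : ∃ m, n = m + 1 := ⟨n - 1, by omega⟩
      simp only [Nat.add_sub_cancel]; ring
  have h4 : 2 * U = n ^ 2 + n := by rw [pow_two]; omega
  have h5 : 2 * T ≤ n ^ 2 := by rw [pow_two]; omega
  calc 2 * (U * A + T * B) = (2 * U) * A + (2 * T) * B := by ring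
    _ ≤ (n ^ 2 + n) * A + n ^ 2 * B := by rw [h4]; gcongr

variable {R : Type*} [CommRing R]

theorem lam_pow {M : ℕ} {x y z : R} (hx : x ^ 2 = y ^ (2 * M + 1)) {I : Ideal R}
    (hz : ∃ b, z ^ b ∈ I) {g g' h : ℕ} (hg : GG M g) (hg' : GG M g') (hh : GG M h) (p q : ℕ) :
    lam M x y z (I ^ (p + q)) (p * g + q * g' + h) ≤
      p * lam M x y z I g + q * lam M x y z I g' := by
  have hex : ∀ i, ∃ j, PP M x y z I i j := by
    obtain ⟨b, hb⟩ := hz
    exact fun i => ⟨b, Ideal.mem_sup_right (I.mul_mem_right _ hb)⟩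
  refine lam_le ?_
  obtain ⟨h1, h2⟩ := PP_pow hx hg (lam_spec (hex g)).1 p
  obtain ⟨h3, h4⟩ := PP_pow hx hg' (lam_spec (hex g')).1 q
  rw [pow_add]
  have h5 := PP_mul hx h1 h3 h2 h4
  exact PP_add (h := 0) hx (GG_add h1 h3) hh h5

variable [IsLocalRing R]

theorem Cusp.growth {M : ℕ} {x y z : R} (H : Cusp R M x y z) (hM : 2 ≤ M) {I : Ideal R}
    {a b : ℕ} (ha : 1 ≤ a) (hy : y ^ a ∈ I) (hz : z ^ b ∈ I) :
    ∃ Θ C l : ℕ, M * Θ ≤ (4 * M - 2) * l ∧ (l : ℕ∞) ≤ len I ∧
      ∀ n, 1 ≤ n → 2 * len (I ^ n) ≤ ((n ^ 2 * Θ + n * C : ℕ) : ℕ∞) := by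
  have hx := H.hx
  set L := lam M x y z I with hL
  have hex : ∀ i, ∃ j, PP M x y z I i j :=
    fun i => ⟨b, Ideal.mem_sup_right (I.mul_mem_right _ hz)⟩
  have F1 : ∀ i g, GG M i → GG M g → L (i + g) ≤ L i := by
    intro i g hi hg
    exact lam_le (PP_add (h := 0) hx hi hg (lam_spec (hex i)).1)
  have F2 : ∀ i, 2 * M + 2 * a ≤ i → L i = 0 := by
    intro i hi
    refine Nat.le_zero.1 (lam_le ?_)
    unfold PP
    rw [pow_zero, one_mul]
    refine Ideal.mem_sup_right ?_
    have h1 : GG M (i - 2 * a) := by unfold GG; omega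
    have h2 : ee M x y (2 * a) = y ^ a := by unfold ee; rw [if_pos (by omega)]; congr 1; omega
    have h3 := ee_mul hx (i := 2 * a) (j := i - 2 * a) (Or.inl (by omega)) h1
    rw [show 2 * a + (i - 2 * a) = i by omega, h2] at h3
    rw [← h3]
    exact I.mul_mem_right _ hy
  set E := ∑ j ∈ range M, L (2 * j) with hE
  set E' := ∑ j ∈ range M, L (2 * j + 2) with hE'
  set T := ∑ i ∈ range (2 * a), L (2 * M + i) with hT
  set T' := ∑ i ∈ range (2 * a), L (2 * M + i + 1) with hT'
  have e1 : E' + L 0 = E + L (2 * M) := by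
    have h1 := sum_range_succ (fun j => L (2 * j)) M
    have h2 := sum_range_succ' (fun j => L (2 * j)) M
    rw [h1] at h2
    simp only [Nat.mul_succ, Nat.mul_zero] at h2
    rw [hE, hE', h2]
  have e2 : T' + L (2 * M) = T := by
    have h1 := sum_range_succ (fun i => L (2 * M + i)) (2 * a)
    have h2 := sum_range_succ' (fun i => L (2 * M + i)) (2 * a)
    rw [h1, F2 _ le_rfl, add_zero] at h2
    rw [hT, hT', h2]
    rfl
  have e3 : E ≤ M * L 0 := by
    calc E ≤ ∑ _j ∈ range M, L 0 := sum_le_sum fun j _ => by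
          have := F1 0 (2 * j) (Or.inl rfl) (Or.inl (by omega))
          rwa [Nat.zero_add] at this
      _ = M * L 0 := by rw [sum_const, card_range, smul_eq_mul]
  refine ⟨2 * (E + E') + (T + T'), 2 * E + 4 * M * (M * L 0) + T, E + T, ?_, ?_, ?_⟩
  · zify [show 2 ≤ 4 * M by omega]
    zify at e1 e2 e3
    have h1 : (L (2 * M) : ℤ) ≤ T := by have := Nat.cast_nonneg (α := ℤ) T'; linarith
    have h2 : (E' : ℤ) = E + L (2 * M) - L 0 := by linarith
    have h3 : (T' : ℤ) = T - L (2 * M) := by linarith
    rw [h2, h3]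
    have h4 : (2 : ℤ) ≤ M := by exact_mod_cast hM
    have h5 : (0 : ℤ) ≤ L (2 * M) := Nat.cast_nonneg _
    nlinarith [mul_nonneg (show (0 : ℤ) ≤ 2 * M - 2 by linarith) (sub_nonneg.2 h1),
      mul_nonneg (show (0 : ℤ) ≤ (M : ℤ) - 2 by linarith) h5]
  · have h1 := H.lower (I := I) ⟨b, hz⟩ (2 * M + 2 * a)
    refine le_trans ?_ (h1.trans (len_anti le_sup_right))
    rw [sum_range_add, sum_pairs]
    refine Nat.cast_le.2 (add_le_add (sum_le_sum fun q _ => ?_) (sum_le_sum fun i _ => ?_))
    · rw [if_pos (show GG M (2 * q) from Or.inl (by omega))]; exact Nat.le_add_right _ _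
    · rw [if_pos (show GG M (2 * M + i) by unfold GG; omega)]
  · intro n hn
    set f : ℕ → ℕ := fun s => if GG M s then lam M x y z (I ^ n) s else 0 with hf
    have h1 : FF M x y (2 * M * n + 2 * a * n) ≤ I ^ n := by
      unfold FF
      rw [Ideal.span_le]
      rintro r ⟨j, hj, hj2, rfl⟩
      have h2 : GG M (j - 2 * (a * n)) := by
        have h5 : 2 * M * 1 ≤ 2 * M * n := Nat.mul_le_mul_left _ hn
        have e : 2 * a * n = 2 * (a * n) := by ring
        unfold GG
        omega
      have h3 : ee M x y (2 * (a * n)) = y ^ (a * n) := by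
        unfold ee; rw [if_pos (by omega)]; congr 1; omega
      have h4 := ee_mul hx (i := 2 * (a * n)) (j := j - 2 * (a * n)) (Or.inl (by omega)) h2
      have e : 2 * a * n = 2 * (a * n) := by ring
      rw [show 2 * (a * n) + (j - 2 * (a * n)) = j by omega, h3] at h4
      rw [← h4]
      refine (I ^ n).mul_mem_right _ ?_
      rw [pow_mul]
      exact Ideal.pow_mem_pow hy n
    have hz' : ∃ b, z ^ b ∈ I ^ n := ⟨b * n, by rw [pow_mul]; exact Ideal.pow_mem_pow hz n⟩
    have h2 := H.upper (I := I ^ n) hz' (2 * M * n + 2 * a * n)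
    rw [sup_eq_right.2 h1] at h2
    have h3 : 2 * ∑ s ∈ range (2 * M * n + 2 * a * n), f s ≤
        n ^ 2 * (2 * (E + E') + (T + T')) + n * (2 * E + 4 * M * (M * L 0) + T) := by
      rw [sum_range_add, show 2 * M * n = M * (2 * n) by ring, sum_blocks, sum_blocks]
      have h4 : ∀ j ∈ range M, 2 * ∑ t ∈ range (2 * n), f (j * (2 * n) + t) ≤
          2 * ((n ^ 2 + n) * L (2 * j) + n ^ 2 * L (2 * j + 2)) + 4 * (n * (M * L 0)) := by
        intro j _
        rw [sum_pairs]
        have h5 : ∀ q ∈ range n, f (j * (2 * n) + 2 * q) + f (j * (2 * n) + (2 * q + 1)) ≤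
            2 * ((n - q) * L (2 * j) + q * L (2 * j + 2)) + (M * L 0 +
              (if q < M then n * L 0 else 0)) := by
          intro q hq
          have hq' := mem_range.1 hq
          have h6 : f (j * (2 * n) + 2 * q) ≤ (n - q) * L (2 * j) + q * L (2 * j + 2) := by
            simp only [hf]
            rw [if_pos (by left; rw [Nat.add_mod, Nat.mul_mod]; simp)]
            have h7 := lam_pow hx (I := I) ⟨b, hz⟩ (M := M) (g := 2 * j) (g' := 2 * j + 2) (h := 0)
              (Or.inl (by omega)) (Or.inl (by omega)) (Or.inl rfl) (n - q) q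
            rw [show n - q + q = n by omega] at h7
            have e : (n - q) * (2 * j) + q * (2 * j + 2) + 0 = j * (2 * n) + 2 * q := by
              obtain ⟨r, rfl⟩ := Nat.exists_eq_add_of_le hq'.le
              rw [Nat.add_sub_cancel_left]; ring
            rwa [e] at h7
          have h7 : f (j * (2 * n) + (2 * q + 1)) ≤ (n - q) * L (2 * j) + q * L (2 * j + 2) +
              (M * L 0 + (if q < M then n * L 0 else 0)) := by
            simp only [hf]
            by_cases hG : GG M (j * (2 * n) + (2 * q + 1))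
            · rw [if_pos hG]
              by_cases hqM : q < M
              · rw [if_pos hqM]
                have h8 := lam_pow hx (I := I) ⟨b, hz⟩ (M := M) (g := 0) (g' := 0)
                  (Or.inl rfl) (Or.inl rfl) hG n 0
                simp only [Nat.add_zero, Nat.mul_zero, Nat.zero_mul, Nat.zero_add] at h8
                rw [← hL] at h8
                omega
              · rw [if_neg hqM, add_zero]
                push Not at hqM
                have h8 := lam_pow hx (I := I) ⟨b, hz⟩ (M := M) (g := 2 * j) (g' := 2 * j + 2)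
                  (h := 2 * M + 1) (Or.inl (by omega)) (Or.inl (by omega)) (Or.inr le_rfl)
                  (n - q + M) (q - M)
                rw [show n - q + M + (q - M) = n by omega] at h8
                have e : (n - q + M) * (2 * j) + (q - M) * (2 * j + 2) + (2 * M + 1) =
                    j * (2 * n) + (2 * q + 1) := by
                  obtain ⟨r, rfl⟩ := Nat.exists_eq_add_of_le hq'.le
                  obtain ⟨u, rfl⟩ := Nat.exists_eq_add_of_le hqM
                  rw [Nat.add_sub_cancel_left, Nat.add_sub_cancel_left]; ring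
                rw [e] at h8
                refine h8.trans ?_
                have h9 := F1 0 (2 * j) (Or.inl rfl) (Or.inl (by omega))
                rw [Nat.zero_add] at h9
                have h10 : M * L (2 * j) ≤ M * L 0 := Nat.mul_le_mul_left _ h9
                have h11 : (q - M) * L (2 * j + 2) ≤ q * L (2 * j + 2) :=
                  Nat.mul_le_mul_right _ (Nat.sub_le _ _)
                have h12 : (n - q + M) * L (2 * j) = (n - q) * L (2 * j) + M * L (2 * j) :=
                  add_mul _ _ _
                rw [← hL]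
                omega
            · rw [if_neg hG]; exact Nat.zero_le _
          omega
        have h6 : ∑ q ∈ range n, (f (j * (2 * n) + 2 * q) + f (j * (2 * n) + (2 * q + 1))) ≤
            2 * ∑ q ∈ range n, ((n - q) * L (2 * j) + q * L (2 * j + 2)) +
            (n * (M * L 0) + ∑ q ∈ range n, (if q < M then n * L 0 else 0)) := by
          refine (sum_le_sum h5).trans (le_of_eq ?_)
          rw [sum_add_distrib, ← mul_sum]
          congr 1
          rw [sum_add_distrib, sum_const, card_range, smul_eq_mul]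
        have h7 : ∑ q ∈ range n, (if q < M then n * L 0 else 0) ≤ n * (M * L 0) := by
          rw [← sum_filter, sum_const, smul_eq_mul]
          have h8 : ((range n).filter (fun q => q < M)).card ≤ M := by
            refine (card_le_card (t := range M) fun q hq => ?_).trans (card_range M).le
            exact mem_range.2 (mem_filter.1 hq).2
          calc _ ≤ M * (n * L 0) := Nat.mul_le_mul_right _ h8
            _ = _ := by ring
        have h8 := sum_tri n (L (2 * j)) (L (2 * j + 2))
        omega
      have h5 : ∀ i ∈ range (2 * a), 2 * ∑ q ∈ range n, f (M * (2 * n) + (i * n + q)) ≤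
          (n ^ 2 + n) * L (2 * M + i) + n ^ 2 * L (2 * M + i + 1) := by
        intro i _
        refine le_trans (Nat.mul_le_mul_left _ (sum_le_sum fun q hq => ?_)) (sum_tri n _ _)
        have hq' := mem_range.1 hq
        simp only [hf]
        have hGi : GG M (2 * M + i) ∧ GG M (2 * M + i + 1) := by unfold GG; omega
        have h7 := lam_pow hx (I := I) ⟨b, hz⟩ (M := M) (g := 2 * M + i) (g' := 2 * M + i + 1)
          (h := 0) hGi.1 hGi.2 (Or.inl rfl) (n - q) q
        rw [show n - q + q = n by omega] at h7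
        have e : (n - q) * (2 * M + i) + q * (2 * M + i + 1) + 0 = M * (2 * n) + (i * n + q) := by
          obtain ⟨r, rfl⟩ := Nat.exists_eq_add_of_le hq'.le
          rw [Nat.add_sub_cancel_left]; ring
        rw [e] at h7
        split_ifs
        · exact h7
        · exact Nat.zero_le _
      have h6 := sum_le_sum h4
      have h7 := sum_le_sum h5
      rw [← mul_sum] at h6 h7
      rw [sum_add_distrib, ← mul_sum, sum_add_distrib, ← mul_sum, ← mul_sum, sum_const, card_range,
        smul_eq_mul] at h6
      rw [sum_add_distrib, ← mul_sum, ← mul_sum] at h7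
      rw [← hE, ← hE'] at h6
      rw [← hT, ← hT'] at h7
      rw [mul_add]
      refine (add_le_add h6 h7).trans (le_of_eq ?_)
      ring
    calc 2 * len (I ^ n) ≤ 2 * ((∑ s ∈ range (2 * M * n + 2 * a * n), f s : ℕ) : ℕ∞) := by
          gcongr
      _ = ((2 * ∑ s ∈ range (2 * M * n + 2 * a * n), f s : ℕ) : ℕ∞) := by push_cast; rfl
      _ ≤ _ := Nat.cast_le.2 h3

end Pool.Agent.R813.LM
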