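import Mathlib

set_option autoImplicit false

/-! The Lech–Mumford constant. -/

namespace Pool.Agent.R813.LM

open scoped ENNReal Nat
open Filter

/-- The Krull dimension as a natural number. -/
noncomputable def dimNat (R : Type*) [CommRing R] : ℕ := ((ringKrullDim R).unbotD 0).toNat

/-- The length of `R / I`, as an extended nonnegative real. -/
noncomputable def colength (R : Type*) [CommRing R] (I : Ideal R) : ℝ≥0∞ :=
  ((Module.length R (R ⧸ I) : ℕ∞) : ℝ≥0∞)

/-- The Hilbert–Samuel multiplicity `e(I) = lim d! ℓ(R / I ^ n) / n ^ d`. -/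
noncomputable def mult (R : Type*) [CommRing R] (I : Ideal R) : ℝ≥0∞ :=
  limsup (fun n : ℕ => ((dimNat R)! : ℝ≥0∞) * colength R (I ^ n) / (n : ℝ≥0∞) ^ dimNat R) atTop

/-- The Lech–Mumford constant: the supremum of `e(I) / (d! ℓ(R / I))` over the ideals `I` whose
radical is maximal. -/
noncomputable def LechMumford (R : Type*) [CommRing R] : ℝ≥0∞ :=
  ⨆ (I : Ideal R) (_ : I.radical.IsMaximal), mult R I / (((dimNat R)! : ℝ≥0∞) * colength R I)

end Pool.Agent.R813.LM
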