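import Mathlib

set_option autoImplicit false

/-! The power series ring in three variables is a complete regular local ring of dimension 3. -/

namespace Pool.Agent.R813.LM

open IsLocalRing MvPowerSeries

variable (k : Type*) [Field k]

theorem mem_span_range_X (n : ℕ) (r : MvPowerSeries (Fin n) k) (h : constantCoeff r = 0) :
    r ∈ Ideal.span (Set.range (X : Fin n → MvPowerSeries (Fin n) k)) := by
  induction n with
  | zero =>
    have : r = 0 := by
      ext m
      have hm : m = 0 := Subsingleton.elim _ _
      rw [hm, coeff_zero_eq_constantCoeff_apply, h, map_zero]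
    rw [this]; exact zero_mem _
  | succ n ih =>
    set e := finSuccEquiv k n with he
    set p := e r with hp
    set p0 := PowerSeries.constantCoeff p with hp0
    have h0 : constantCoeff p0 = 0 := by
      rw [← coeff_zero_eq_constantCoeff_apply, hp0, ← PowerSeries.coeff_zero_eq_constantCoeff_apply,
        hp, he, coeff_coeff_finSuccEquiv, Finsupp.cons_zero_zero, coeff_zero_eq_constantCoeff_apply,
        h]
    have h1 := ih p0 h0
    set φ : MvPowerSeries (Fin n) k →+* MvPowerSeries (Fin (n + 1)) k :=
      (e.symm.toRingEquiv.toRingHom).comp PowerSeries.C with hφ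
    have h2 : Ideal.span (Set.range (X : Fin n → MvPowerSeries (Fin n) k)) ≤
        (Ideal.span (Set.range (X : Fin (n + 1) → MvPowerSeries (Fin (n + 1)) k))).comap φ := by
      rw [Ideal.span_le]
      rintro s ⟨i, rfl⟩
      have h3 : φ (X i) = X i.succ := by
        change e.symm (PowerSeries.C (X i)) = _
        rw [AlgEquiv.symm_apply_eq, he, finSuccEquiv_X_succ]
      rw [SetLike.mem_coe, Ideal.mem_comap, h3]
      exact Ideal.subset_span ⟨_, rfl⟩
    have h3 := Ideal.mem_comap.1 (h2 h1)
    obtain ⟨q, hq⟩ := PowerSeries.X_dvd_iff.2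
      (show PowerSeries.constantCoeff (p - PowerSeries.C p0) = 0 by
        rw [map_sub, PowerSeries.constantCoeff_C, ← hp0, sub_self])
    have h4 : r = φ p0 + X 0 * e.symm q := by
      have h5 : p = PowerSeries.C p0 + PowerSeries.X * q := by rw [← hq]; ring
      have h6 : r = e.symm p := by rw [hp, AlgEquiv.symm_apply_apply]
      have h7 : e.symm PowerSeries.X = X 0 := by
        rw [AlgEquiv.symm_apply_eq, he, finSuccEquiv_X_zero]
      rw [h6, h5, map_add, map_mul, h7]
      rfl
    rw [h4]
    exact add_mem h3 (Ideal.mul_mem_right _ _ (Ideal.subset_span ⟨0, rfl⟩))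

theorem maximalIdeal_eq (n : ℕ) : maximalIdeal (MvPowerSeries (Fin n) k) =
    Ideal.span (Set.range (X : Fin n → MvPowerSeries (Fin n) k)) := by
  refine le_antisymm ?_ ?_
  · intro r hr
    refine mem_span_range_X k n r ?_
    by_contra hcon
    exact (mem_maximalIdeal _).1 hr (isUnit_iff_constantCoeff.2 (isUnit_iff_ne_zero.2 hcon))
  · rw [Ideal.span_le]
    rintro r ⟨i, rfl⟩
    refine (mem_maximalIdeal _).2 fun hu => ?_
    have := isUnit_iff_constantCoeff.1 hu
    rw [constantCoeff_X] at this
    exact not_isUnit_zero this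

theorem range_three {α : Type*} (f : Fin 3 → α) : Set.range f = {f 0, f 1, f 2} := by
  ext a
  constructor
  · rintro ⟨i, rfl⟩
    fin_cases i <;> simp
  · rintro (rfl | rfl | rfl)
    exacts [⟨0, rfl⟩, ⟨1, rfl⟩, ⟨2, rfl⟩]

theorem maximalIdeal_three : maximalIdeal (MvPowerSeries (Fin 3) k) =
    Ideal.span {(X 0 : MvPowerSeries (Fin 3) k), X 1, X 2} := by
  rw [maximalIdeal_eq, range_three]

theorem le_dim (n : ℕ) : (n : WithBot ℕ∞) ≤ ringKrullDim (MvPowerSeries (Fin n) k) := by
  induction n with
  | zero => exact ringKrullDim_nonneg_of_nontrivial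
  | succ n ih =>
    rw [ringKrullDim_eq_of_ringEquiv (finSuccEquiv k n).toRingEquiv]
    refine le_trans ?_ ringKrullDim_succ_le_ringKrullDim_powerseries
    push_cast
    gcongr

theorem spanFinrank_le (n : ℕ) : (maximalIdeal (MvPowerSeries (Fin n) k)).spanFinrank ≤ n := by
  rw [maximalIdeal_eq]
  refine (Submodule.spanFinrank_span_le_ncard_of_finite (Set.finite_range _)).trans ?_
  rw [← Set.image_univ]
  refine (Set.ncard_image_le Set.finite_univ).trans ?_
  rw [Set.ncard_univ, Nat.card_eq_fintype_card, Fintype.card_fin]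

theorem dim_eq (n : ℕ) : ringKrullDim (MvPowerSeries (Fin n) k) = n := by
  refine le_antisymm ?_ (le_dim k n)
  refine (ringKrullDim_le_spanFinrank_maximalIdeal _).trans ?_
  exact_mod_cast spanFinrank_le k n

theorem regular (n : ℕ) : IsRegularLocalRing (MvPowerSeries (Fin n) k) := by
  refine IsRegularLocalRing.of_spanFinrank_maximalIdeal_le _ ?_
  rw [dim_eq]
  exact_mod_cast spanFinrank_le k n

theorem complete (n : ℕ) : IsAdicComplete (maximalIdeal (MvPowerSeries (Fin n) k))
    (MvPowerSeries (Fin n) k) := by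
  rw [maximalIdeal_eq]
  infer_instance

end Pool.Agent.R813.LM
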