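import Mathlib
import Pool.Agent.R813.LM.Defs
import Pool.Agent.R813.LM.Comb
import Pool.Agent.R813.LM.Cnt
import Pool.Agent.R813.LM.Ser

set_option autoImplicit false

/-! Bounds for the Lech–Mumford constant. -/

namespace Pool.Agent.R813.LM

open scoped ENNReal Nat Topology
open Filter IsLocalRing MvPowerSeries

theorem colength_eq {R : Type*} [CommRing R] (I : Ideal R) :
    colength R I = ((len I : ℕ∞) : ℝ≥0∞) := rfl

theorem tendsto_aux (a b : ℝ≥0∞) (hb : b ≠ ∞) :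
    Tendsto (fun n : ℕ => a + b / (n : ℝ≥0∞)) atTop (𝓝 a) := by
  have h1 : Tendsto (fun n : ℕ => b / (n : ℝ≥0∞)) atTop (𝓝 (b / ∞)) :=
    ENNReal.Tendsto.const_div ENNReal.tendsto_nat_nhds_top (Or.inr hb)
  rw [ENNReal.div_top] at h1
  simpa using tendsto_const_nhds.add h1

theorem tendsto_aux' (a b : ℝ≥0∞) (ha : a ≠ ∞) (hb : b ≠ ∞) :
    Tendsto (fun n : ℕ => a - b / (n : ℝ≥0∞)) atTop (𝓝 a) := by
  have h1 : Tendsto (fun n : ℕ => b / (n : ℝ≥0∞)) atTop (𝓝 (b / ∞)) :=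
    ENNReal.Tendsto.const_div ENNReal.tendsto_nat_nhds_top (Or.inr hb)
  rw [ENNReal.div_top] at h1
  have h2 := ENNReal.Tendsto.sub (tendsto_const_nhds (x := a)) h1 (Or.inl ha)
  rwa [tsub_zero] at h2

theorem mult_le {R : Type*} [CommRing R] (hd : dimNat R = 2) {I : Ideal R} {Θ C : ℕ}
    (h : ∀ n, 1 ≤ n → 2 * len (I ^ n) ≤ ((n ^ 2 * Θ + n * C : ℕ) : ℕ∞)) : mult R I ≤ Θ := by
  have h1 := tendsto_aux (Θ : ℝ≥0∞) (C : ℝ≥0∞) (ENNReal.natCast_ne_top C)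
  rw [← h1.limsup_eq]
  unfold mult
  refine limsup_le_limsup ?_
  filter_upwards [eventually_ge_atTop 1] with n hn
  rw [hd, colength_eq]
  have h2 : (((2 * len (I ^ n) : ℕ∞)) : ℝ≥0∞) ≤ (((n ^ 2 * Θ + n * C : ℕ) : ℕ∞) : ℝ≥0∞) := by
    exact_mod_cast h n hn
  have hn0 : (n : ℝ≥0∞) ≠ 0 := by
    exact_mod_cast (by omega : n ≠ 0)
  have hnt : (n : ℝ≥0∞) ≠ ∞ := ENNReal.natCast_ne_top n
  rw [ENNReal.div_le_iff (pow_ne_zero _ hn0) (ENNReal.pow_ne_top hnt)]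
  push_cast at h2
  have h3 : ((2 ! : ℕ) : ℝ≥0∞) = 2 := by norm_num
  rw [h3]
  refine h2.trans (le_of_eq ?_)
  rw [add_mul, pow_two, ← mul_assoc, ← mul_assoc]
  congr 1
  · ring
  · rw [ENNReal.div_mul_cancel hn0 hnt]; ring

theorem le_mult {R : Type*} [CommRing R] (hd : dimNat R = 2) {I : Ideal R} {n : ℕ}
    (h : ∀ l, ((2 * (n * l) ^ 2 : ℕ) : ℕ∞) ≤ 2 * len (I ^ (l + 1))) :
    ((2 * n ^ 2 : ℕ) : ℝ≥0∞) ≤ mult R I := by
  have h1 := tendsto_aux' ((2 * n ^ 2 : ℕ) : ℝ≥0∞) ((4 * n ^ 2 : ℕ) : ℝ≥0∞)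
    (ENNReal.natCast_ne_top _) (ENNReal.natCast_ne_top _)
  rw [← h1.limsup_eq]
  unfold mult
  refine limsup_le_limsup ?_
  filter_upwards [eventually_ge_atTop 1] with m hm
  obtain ⟨l, rfl⟩ : ∃ l, m = l + 1 := ⟨m - 1, by omega⟩
  rw [hd, colength_eq]
  have h2 : (((2 * (n * l) ^ 2 : ℕ) : ℕ∞) : ℝ≥0∞) ≤ ((2 * len (I ^ (l + 1)) : ℕ∞) : ℝ≥0∞) := by
    exact_mod_cast h l
  have hn0 : ((l + 1 : ℕ) : ℝ≥0∞) ≠ 0 := by
    exact_mod_cast (by omega : l + 1 ≠ 0)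
  have hnt : ((l + 1 : ℕ) : ℝ≥0∞) ≠ ∞ := ENNReal.natCast_ne_top _
  rw [tsub_le_iff_right, ← ENNReal.mul_le_mul_iff_left (c := ((l + 1 : ℕ) : ℝ≥0∞) ^ 2)
    (pow_ne_zero _ hn0) (ENNReal.pow_ne_top hnt), add_mul,
    ENNReal.div_mul_cancel (pow_ne_zero _ hn0) (ENNReal.pow_ne_top hnt),
    pow_two ((l + 1 : ℕ) : ℝ≥0∞), ← mul_assoc, ← mul_assoc, ENNReal.div_mul_cancel hn0 hnt]
  have h3 : ((2 ! : ℕ) : ℝ≥0∞) = 2 := by norm_num
  rw [h3]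
  have h4 : ((2 * len (I ^ (l + 1)) : ℕ∞) : ℝ≥0∞) = 2 * ((len (I ^ (l + 1)) : ℕ∞) : ℝ≥0∞) := by
    push_cast; rfl
  rw [← h4]
  refine le_trans ?_ (add_le_add h2 le_rfl)
  have h5 : 2 * n ^ 2 * (l + 1) * (l + 1) ≤ 2 * (n * l) ^ 2 + 4 * n ^ 2 * (l + 1) := by
    nlinarith [Nat.zero_le (n ^ 2), Nat.zero_le (n ^ 2 * l)]
  exact_mod_cast h5

theorem radical_eq {R : Type*} [CommRing R] [IsLocalRing R] {I : Ideal R}
    (h : I.radical.IsMaximal) : I.radical = maximalIdeal R := eq_maximalIdeal h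

/-- upper bound for the cusp rings -/
theorem Cusp.LM_le {R : Type*} [CommRing R] [IsLocalRing R] (hd : dimNat R = 2) {M : ℕ}
    {x y z : R} (H : Cusp R M x y z) (hM : 2 ≤ M) :
    LechMumford R ≤ ((2 * M - 1 : ℕ) : ℝ≥0∞) / (M : ℝ≥0∞) := by
  unfold LechMumford
  refine iSup₂_le fun I hI => ?_
  have hrad := radical_eq hI
  have hy : y ∈ I.radical := by rw [hrad, H.hm]; exact Ideal.subset_span (by simp)
  have hz : z ∈ I.radical := by rw [hrad, H.hm]; exact Ideal.subset_span (by simp)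
  obtain ⟨a, ha⟩ := hy
  obtain ⟨b, hb⟩ := hz
  obtain ⟨Θ, C, l, h1, h2, h3⟩ := H.growth hM (a := a + 1) (by omega)
    (by rw [pow_succ]; exact I.mul_mem_right _ ha) hb
  have h4 := mult_le hd h3
  refine ENNReal.div_le_of_le_mul ?_
  rw [hd, colength_eq]
  refine h4.trans ?_
  have hM0 : (M : ℝ≥0∞) ≠ 0 := by exact_mod_cast (by omega : M ≠ 0)
  have hMt : (M : ℝ≥0∞) ≠ ∞ := ENNReal.natCast_ne_top M
  have h5 : ((l : ℕ∞) : ℝ≥0∞) ≤ ((len I : ℕ∞) : ℝ≥0∞) := by exact_mod_cast h2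
  have h6 : ((2 ! : ℕ) : ℝ≥0∞) = 2 := by norm_num
  rw [h6, ENNReal.div_eq_inv_mul, mul_assoc, ← ENNReal.div_eq_inv_mul,
    ENNReal.le_div_iff_mul_le (Or.inl hM0) (Or.inl hMt)]
  have h7 : (Θ : ℝ≥0∞) * M ≤ ((2 * M - 1 : ℕ) : ℝ≥0∞) * (2 * (l : ℝ≥0∞)) := by
    have : Θ * M ≤ (2 * M - 1) * (2 * l) := by
      rw [mul_comm Θ M]
      refine h1.trans (le_of_eq ?_)
      rw [show 4 * M - 2 = (2 * M - 1) * 2 by omega]; ring
    exact_mod_cast this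
  refine h7.trans ?_
  gcongr
  exact_mod_cast h2

end Pool.Agent.R813.LM
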