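import Mathlib
import Pool.Agent.R813.LM.Fin

set_option autoImplicit false

/-! The quotients of the power series ring in three variables. -/

namespace Pool.Agent.R813.LM

open scoped ENNReal Nat Topology
open Filter IsLocalRing MvPowerSeries

variable (k : Type*) [Field k]

theorem cancel_one {a : WithBot ℕ∞} (h : a + 1 = ((3 : ℕ) : WithBot ℕ∞)) : a = 2 := by
  induction a using WithBot.recBotCoe with
  | bot => exact absurd h (by rw [WithBot.bot_add]; exact (WithBot.bot_lt_coe _).ne)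
  | coe a =>
    induction a using ENat.recTopCoe with
    | top => 
      have : ((⊤ : ℕ∞) : WithBot ℕ∞) + 1 = ((⊤ : ℕ∞) : WithBot ℕ∞) := rfl
      rw [this] at h
      have h2 : (⊤ : ℕ∞) = ((3 : ℕ) : ℕ∞) := WithBot.coe_injective h
      exact absurd h2.symm (ENat.natCast_ne_top 3)
    | coe a =>
      have h2 : ((a : ℕ∞) + 1) = ((3 : ℕ) : ℕ∞) := WithBot.coe_injective h
      have h3 : a + 1 = 3 := by exact_mod_cast h2
      have h4 : a = 2 := by omega
      subst h4
      rfl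

theorem dim_quot {f : MvPowerSeries (Fin 3) k} (hf : f ∈ maximalIdeal (MvPowerSeries (Fin 3) k))
    (h0 : f ≠ 0) : ringKrullDim (MvPowerSeries (Fin 3) k ⧸ Ideal.span {f}) = 2 := by
  have h1 := ringKrullDim_quotient_span_singleton_succ_eq_ringKrullDim_of_mem_nonZeroDivisors
    (mem_nonZeroDivisors_of_ne_zero h0) hf
  rw [dim_eq] at h1
  exact cancel_one h1

theorem dimNat_quot {f : MvPowerSeries (Fin 3) k}
    (hf : f ∈ maximalIdeal (MvPowerSeries (Fin 3) k)) (h0 : f ≠ 0) :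
    dimNat (MvPowerSeries (Fin 3) k ⧸ Ideal.span {f}) = 2 := by
  unfold dimNat
  rw [dim_quot k hf h0]
  rfl

theorem local_quot {f : MvPowerSeries (Fin 3) k}
    (hf : f ∈ maximalIdeal (MvPowerSeries (Fin 3) k)) :
    IsLocalRing (MvPowerSeries (Fin 3) k ⧸ Ideal.span {f}) := by
  have : Nontrivial (MvPowerSeries (Fin 3) k ⧸ Ideal.span {f}) := by
    rw [Ideal.Quotient.nontrivial_iff]
    intro h
    rw [Ideal.span_singleton_eq_top] at h
    exact (mem_maximalIdeal _).1 hf h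
  exact IsLocalRing.of_surjective' (Ideal.Quotient.mk _) Ideal.Quotient.mk_surjective

theorem max_quot {f : MvPowerSeries (Fin 3) k}
    [IsLocalRing (MvPowerSeries (Fin 3) k ⧸ Ideal.span {f})] :
    maximalIdeal (MvPowerSeries (Fin 3) k ⧸ Ideal.span {f}) =
      Ideal.span {Ideal.Quotient.mk (Ideal.span {f}) (X 0), Ideal.Quotient.mk (Ideal.span {f}) (X 1),
        Ideal.Quotient.mk (Ideal.span {f}) (X 2)} := by
  rw [← map_maximalIdeal_of_surjective (Ideal.Quotient.mk (Ideal.span {f}))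
    Ideal.Quotient.mk_surjective, maximalIdeal_three, Ideal.map_span]
  congr 1
  simp [Set.image_insert_eq]

theorem map_AA {R S : Type*} [CommRing R] [CommRing S] (p : R →+* S) (x y z : R) (n : ℕ) :
    (AA x y z n).map p = AA (p x) (p y) (p z) n := by
  unfold AA
  rw [Ideal.map_sup, Ideal.map_pow, Ideal.map_span, Ideal.map_span]
  simp [Set.image_insert_eq]

theorem X_ne_zero' (i : Fin 3) : (X i : MvPowerSeries (Fin 3) k) ≠ 0 := by
  intro h
  have h1 := congrArg (coeff (Finsupp.single i 1)) h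
  rw [coeff_index_single_self_X, map_zero] at h1
  exact one_ne_zero h1

theorem X_mem (i : Fin 3) : (X i : MvPowerSeries (Fin 3) k) ∈
    maximalIdeal (MvPowerSeries (Fin 3) k) := by
  rw [maximalIdeal_eq]; exact Ideal.subset_span ⟨i, rfl⟩

theorem AA_radical {R : Type*} [CommRing R] [IsLocalRing R] {x y z : R}
    (hm : maximalIdeal R = Ideal.span {x, y, z}) {n : ℕ} (hn : 1 ≤ n) :
    (AA x y z n).radical = maximalIdeal R := by
  refine le_antisymm ?_ ?_
  · rw [(maximalIdeal.isMaximal R).isPrime.isRadical.radical_le_iff]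
    refine sup_le ?_ ?_
    · rw [Ideal.span_singleton_le_iff_mem, hm]
      exact Ideal.subset_span (by simp)
    · refine (Ideal.pow_le_self (by omega)).trans ?_
      rw [hm]
      refine Ideal.span_mono ?_
      intro a ha
      rcases ha with rfl | ha
      · simp
      · rw [Set.mem_singleton_iff] at ha
        subst ha
        simp
  · rw [hm, Ideal.span_le]
    rintro a (rfl | rfl | rfl)
    · exact Ideal.le_radical (Ideal.mem_sup_left (Ideal.mem_span_singleton_self _))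
    · exact ⟨n, Ideal.mem_sup_right (Ideal.pow_mem_pow (Ideal.subset_span (by simp)) _)⟩
    · exact ⟨n, Ideal.mem_sup_right (Ideal.pow_mem_pow (Ideal.subset_span (by simp)) _)⟩

/-- lower bound for the quotient by `x ^ 2` -/
theorem le_LM (n : ℕ) (hn : 1 ≤ n) : ((2 * n ^ 2 : ℕ) : ℝ≥0∞) / ((n ^ 2 + n : ℕ) : ℝ≥0∞) ≤
    LechMumford (MvPowerSeries (Fin 3) k ⧸ Ideal.span {(X 0 : MvPowerSeries (Fin 3) k) ^ 2}) := by
  have hf : (X 0 : MvPowerSeries (Fin 3) k) ^ 2 ∈ maximalIdeal (MvPowerSeries (Fin 3) k) :=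
    Ideal.pow_mem_of_mem _ (X_mem k 0) 2 (by norm_num)
  have h0 : (X 0 : MvPowerSeries (Fin 3) k) ^ 2 ≠ 0 := pow_ne_zero _ (X_ne_zero' k 0)
  have hd := dimNat_quot k hf h0
  have := local_quot k hf
  have hm := max_quot k (f := (X 0 : MvPowerSeries (Fin 3) k) ^ 2)
  set π := Ideal.Quotient.mk (Ideal.span {(X 0 : MvPowerSeries (Fin 3) k) ^ 2}) with hπ
  have h1 := le_mult hd (I := (AA (X 0 : MvPowerSeries (Fin 3) k) (X 1) (X 2) n).map π) (n := n)
    (fun l => AA_growth n l)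
  rw [map_AA] at h1
  have h2 := len_AA_le hm n
  have h3 := AA_radical hm hn
  unfold LechMumford
  refine le_trans ?_ (le_iSup₂ (f := fun (I : Ideal (MvPowerSeries (Fin 3) k ⧸
    Ideal.span {(X 0 : MvPowerSeries (Fin 3) k) ^ 2})) (_ : I.radical.IsMaximal) =>
    mult _ I / (((dimNat (MvPowerSeries (Fin 3) k ⧸
    Ideal.span {(X 0 : MvPowerSeries (Fin 3) k) ^ 2}))! : ℝ≥0∞) * colength _ I))
    (AA (π (X 0)) (π (X 1)) (π (X 2)) n) (by rw [h3]; exact maximalIdeal.isMaximal _))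
  refine ENNReal.div_le_div h1 ?_
  rw [hd, colength_eq]
  have h6 : ((2 ! : ℕ) : ℝ≥0∞) = 2 := by norm_num
  rw [h6]
  have h7 : ((len (AA (π (X 0)) (π (X 1)) (π (X 2)) n) : ℕ∞) : ℝ≥0∞) ≤
      ((∑ i ∈ Finset.range n, (i + 1) : ℕ) : ℝ≥0∞) := by
    have h9 := ENat.toENNReal_le.2 h2
    rwa [ENat.toENNReal_coe] at h9
  refine (mul_le_mul_right h7 2).trans (le_of_eq ?_)
  have h8 := gauss n
  exact_mod_cast h8

/-- the Cusp structure on the quotient by `x ^ 2 - y ^ (2 M + 1)` -/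
theorem cusp_quot (M : ℕ) {f : MvPowerSeries (Fin 3) k} (hf : f = X 0 ^ 2 + -(X 1) ^ (2 * M + 1))
    [IsLocalRing (MvPowerSeries (Fin 3) k ⧸ Ideal.span {f})] :
    Cusp (MvPowerSeries (Fin 3) k ⧸ Ideal.span {f}) M
      (Ideal.Quotient.mk (Ideal.span {f}) (X 0)) (Ideal.Quotient.mk (Ideal.span {f}) (X 1))
      (Ideal.Quotient.mk (Ideal.span {f}) (X 2)) := by
  refine ⟨max_quot k, ?_⟩
  rw [← map_pow, ← map_pow, Ideal.Quotient.mk_eq_mk_iff_sub_mem, Ideal.mem_span_singleton]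
  exact ⟨1, by rw [hf, mul_one, sub_eq_add_neg]⟩

end Pool.Agent.R813.LM
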